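import Mathlib
import Pool.Agent.W968.SCx.Final
import Pool.Agent.Helper227.Test

set_option autoImplicit false

namespace Pool.Agent.Results.MP_a32fd7_lc.ShiftComplexStrict

open Pool.Agent.Helper227 Pool.Agent.W968.SCx

/-- For all reals `0 < α < β < 1` one has `SC(α) <_w SC(β)`: every `β`-shift complex sequence
computes an `α`-shift complex sequence, but some `α`-shift complex sequence computes no
`β`-shift complex sequence. -/
theorem result (U : List Bool →. List Bool) (hU : IsUniversal U) (α β : ℝ) (hα : 0 < α)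
    (hαβ : α < β) (hβ : β < 1) :
    WeakLe (SC U α) (SC U β) ∧ ¬ WeakLe (SC U β) (SC U α) := by
  refine ⟨fun Y hY => ⟨Y, ?_, TLe.refl Y⟩, fun h => ?_⟩
  · obtain ⟨c, hc⟩ := hY
    refine ⟨c, fun k l => le_trans ?_ (hc k l)⟩
    have h1 : α * (l : ℝ) ≤ β * l := mul_le_mul_of_nonneg_right hαβ.le (Nat.cast_nonneg l)
    linarith
  · obtain ⟨X, hX, hXn⟩ := main hU hα hαβ hβ
    obtain ⟨Y, hY, hYX⟩ := h X hX
    exact hXn Y hYX hY

end Pool.Agent.Results.MP_a32fd7_lc.ShiftComplexStrict
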